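import Pool.Agent.T9h68.Core.Syz

set_option autoImplicit false
open CategoryTheory CategoryTheory.MonoidalCategory CategoryTheory.Limits

namespace Pool.Agent.T9h68.Core

noncomputable section

/-- restriction to the last coordinates -/
def tl (m : ℕ) : (Fin (m + 1) → K) →ₗ[K] (Fin m → K) where
  toFun f := fun i => f i.succ
  map_add' a b := rfl
  map_smul' c a := rfl

/-- restriction to the first coordinates -/
def it (m : ℕ) : (Fin (m + 1) → K) →ₗ[K] (Fin m → K) where
  toFun f := fun i => f i.castSucc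
  map_add' a b := rfl
  map_smul' c a := rfl

/-- extension by zero on the left -/
def cz (m : ℕ) : (Fin m → K) →ₗ[K] (Fin (m + 1) → K) where
  toFun f := Fin.cons 0 f
  map_add' a b := by
    ext i
    refine Fin.cases ?_ (fun j => ?_) i <;> simp
  map_smul' c a := by
    ext i
    refine Fin.cases ?_ (fun j => ?_) i <;> simp

/-- extension by zero on the right -/
def sz (m : ℕ) : (Fin m → K) →ₗ[K] (Fin (m + 1) → K) where
  toFun f := Fin.snoc f 0
  map_add' a b := by
    ext i
    refine Fin.lastCases ?_ (fun j => ?_) i <;> simp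
  map_smul' c a := by
    ext i
    refine Fin.lastCases ?_ (fun j => ?_) i <;> simp

/-- the preprojective family -/
def W (m : ℕ) : R := kron (tl m) (it m)

/-- the preinjective family -/
def N (m : ℕ) : R := kron (sz m) (cz m)

instance (m : ℕ) : FiniteDimensional K (W m).V :=
  inferInstanceAs (FiniteDimensional K (kron (tl m) (it m)).V)

instance (m : ℕ) : FiniteDimensional K (N m).V :=
  inferInstanceAs (FiniteDimensional K (kron (sz m) (cz m)).V)

theorem sd_W (m : ℕ) : sd (W m) = 2 * m + 1 := by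
  unfold W
  rw [sd_kron]
  simp
  ring

theorem sd_N (m : ℕ) : sd (N m) = 2 * m + 1 := by
  unfold N
  rw [sd_kron]
  simp
  ring

theorem syz_W (m : ℕ) : IsSyz (W (m + 1)) (W m) := by
  refine isSyz_kron (tl m) (it m) (tl (m + 1)) (it (m + 1)) ?_ ?_ ?_ ?_
  · intro s
    refine ⟨Fin.cons 0 s, 0, ?_⟩
    ext i
    simp [tl]
  · intro z
    ext i
    simp only [tl, it, LinearMap.coe_mk, AddHom.coe_mk, Pi.add_apply, Pi.zero_apply]
    rw [Fin.succ_castSucc]
    exact two_zero _
  · intro z h1 h2
    ext i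
    refine Fin.cases ?_ (fun j => ?_) i
    · exact congrFun h2 0
    · exact congrFun h1 j
  · intro a b h
    have h' : ∀ i : Fin m, a i.succ = b i.castSucc := by
      intro i
      have := congrFun h i
      simp only [tl, it, LinearMap.coe_mk, AddHom.coe_mk, Pi.add_apply, Pi.zero_apply] at this
      rw [← neg_eq (b i.castSucc)]
      exact eq_neg_of_add_eq_zero_left this
    refine ⟨Fin.cons (a 0) b, ?_, ?_⟩
    · ext i
      refine Fin.cases ?_ (fun j => ?_) i
      · simp [it]
      · cases m with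
        | zero => exact j.elim0
        | succ m =>
          simp only [it, LinearMap.coe_mk, AddHom.coe_mk]
          rw [← Fin.succ_castSucc, Fin.cons_succ, h']
    · ext i
      simp [tl]

theorem syz_N (m : ℕ) : IsSyz (N m) (N (m + 1)) := by
  refine isSyz_kron (sz (m + 1)) (cz (m + 1)) (sz m) (cz m) ?_ ?_ ?_ ?_
  · intro s
    refine ⟨Fin.cons (s 0) 0, fun i => s i.succ, ?_⟩
    ext i
    refine Fin.cases ?_ (fun j => ?_) i
    · simp only [sz, cz, LinearMap.coe_mk, AddHom.coe_mk, Pi.add_apply, Fin.cons_zero, add_zero]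
      have : (0 : Fin (m + 1 + 1)) = (0 : Fin (m + 1)).castSucc := rfl
      rw [this, Fin.snoc_castSucc]
      rfl
    · simp only [sz, cz, LinearMap.coe_mk, AddHom.coe_mk, Pi.add_apply, Fin.cons_succ]
      refine Fin.lastCases ?_ (fun l => ?_) j
      · rw [Fin.succ_last, Fin.snoc_last, zero_add]
      · rw [Fin.succ_castSucc, Fin.snoc_castSucc]
        simp
  · intro z
    ext i
    simp only [sz, cz, LinearMap.coe_mk, AddHom.coe_mk, Pi.add_apply, Pi.zero_apply]
    have : (Fin.snoc (Fin.cons (0 : K) z : Fin (m + 1) → K) (0 : K) : Fin (m + 2) → K) =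
        Fin.cons (0 : K) (Fin.snoc z (0 : K) : Fin (m + 1) → K) := by
      ext i
      refine Fin.cases ?_ (fun j => ?_) i
      · have : (0 : Fin (m + 1 + 1)) = (0 : Fin (m + 1)).castSucc := rfl
        rw [this, Fin.snoc_castSucc]
        rfl
      · refine Fin.lastCases ?_ (fun l => ?_) j
        · rw [Fin.succ_last, Fin.snoc_last, ← Fin.succ_last, Fin.cons_succ, Fin.snoc_last]
        · rw [Fin.cons_succ, Fin.snoc_castSucc, Fin.succ_castSucc, Fin.snoc_castSucc, Fin.cons_succ]
    rw [this]
    exact two_zero _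
  · intro z h1 _
    ext i
    have := congrFun h1 i.castSucc
    simpa [sz] using this
  · intro a b h
    have h0 : a 0 = 0 := by
      have := congrFun h 0
      simp only [sz, cz, LinearMap.coe_mk, AddHom.coe_mk, Pi.add_apply, Fin.cons_zero, add_zero,
        Pi.zero_apply] at this
      have e : (0 : Fin (m + 1 + 1)) = (0 : Fin (m + 1)).castSucc := rfl
      rw [e, Fin.snoc_castSucc] at this
      exact this
    have hl : b (Fin.last m) = 0 := by
      have := congrFun h (Fin.last (m + 1))
      simp only [sz, cz, LinearMap.coe_mk, AddHom.coe_mk, Pi.add_apply, Fin.snoc_last, zero_add,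
        Pi.zero_apply] at this
      rw [← Fin.succ_last, Fin.cons_succ] at this
      exact this
    have hm : ∀ i : Fin m, a i.succ = b i.castSucc := by
      intro i
      have := congrFun h i.castSucc.succ
      simp only [sz, cz, LinearMap.coe_mk, AddHom.coe_mk, Pi.add_apply, Pi.zero_apply,
        Fin.cons_succ] at this
      rw [Fin.succ_castSucc, Fin.snoc_castSucc] at this
      rw [← neg_eq (b i.castSucc)]
      exact eq_neg_of_add_eq_zero_left this
    refine ⟨fun i => b i.castSucc, ?_, ?_⟩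
    · ext i
      refine Fin.cases ?_ (fun j => ?_) i
      · simp [cz, h0]
      · simp [cz, hm]
    · ext i
      refine Fin.lastCases ?_ (fun j => ?_) i
      · simp [sz, hl]
      · simp [sz]

/-- make an isomorphism out of a linear equivalence commuting with the operators -/
def mkIso' {V W : Type} [AddCommGroup V] [Module K V] [AddCommGroup W] [Module K W]
    (ρ : Representation K G V) (σ : Representation K G W) (e : V ≃ₗ[K] W)
    (h1 : ∀ v, e (opX ρ v) = opX σ (e v)) (h2 : ∀ v, e (opY ρ v) = opY σ (e v)) :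
    (Rep.of ρ : R) ≅ Rep.of σ :=
  Rep.mkIso (Representation.Equiv.mk e
    (fun g => equivariant_of_ops ρ σ e.toLinearMap h1 h2 g))

theorem opX_triv (v : K) : opX (Representation.trivial K G K) v = 0 := by
  unfold opX
  simp [two_zero]

theorem opY_triv (v : K) : opY (Representation.trivial K G K) v = 0 := by
  unfold opY
  simp [two_zero]

/-- the trivial module -/
def W0iso : W 0 ≅ 𝟙_ R :=
  mkIso' (kronRep (tl 0) (it 0)) (Representation.trivial K G K)
    { toFun := fun v => v.1 0
      map_add' := fun a b => rfl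
      map_smul' := fun c a => rfl
      invFun := fun c => (fun _ => c, 0)
      left_inv := fun v => by
        refine Prod.ext ?_ ?_
        · ext i
          fin_cases i
          rfl
        · ext i
          exact i.elim0
      right_inv := fun v => rfl }
    (fun v => by rw [opX_kron, opX_triv]; rfl)
    (fun v => by rw [opY_kron, opY_triv]; rfl)

/-- the trivial module -/
def N0iso : N 0 ≅ 𝟙_ R :=
  mkIso' (kronRep (sz 0) (cz 0)) (Representation.trivial K G K)
    { toFun := fun v => v.2 0
      map_add' := fun a b => rfl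
      map_smul' := fun c a => rfl
      invFun := fun c => (0, fun _ => c)
      left_inv := fun v => by
        refine Prod.ext ?_ ?_
        · ext i
          exact i.elim0
        · ext i
          fin_cases i
          rfl
      right_inv := fun v => rfl }
    (fun v => by
      have : sz 0 v.1 = 0 := by
        have : v.1 = 0 := by ext i; exact i.elim0
        rw [this, map_zero]
      rw [opX_kron, opX_triv, this]; rfl)
    (fun v => by
      have : cz 0 v.1 = 0 := by
        have : v.1 = 0 := by ext i; exact i.elim0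
        rw [this, map_zero]
      rw [opY_kron, opY_triv, this]; rfl)

/-- The family of all syzygies of the trivial module. -/
def Wz : ℤ → R
  | Int.ofNat m => W m
  | Int.negSucc m => N (m + 1)

instance (z : ℤ) : FiniteDimensional K (Wz z).V := by
  cases z with
  | ofNat m => exact inferInstanceAs (FiniteDimensional K (W m).V)
  | negSucc m => exact inferInstanceAs (FiniteDimensional K (N (m + 1)).V)

theorem syz_Wz (z : ℤ) : IsSyz (Wz (z + 1)) (Wz z) := by
  cases z with
  | ofNat m => exact syz_W m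
  | negSucc m =>
    cases m with
    | zero => exact (syz_N 0).iso_left (W0iso ≪≫ N0iso.symm)
    | succ m => exact syz_N (m + 1)

theorem sd_Wz (z : ℤ) : sd (Wz z) = 2 * |z| + 1 := by
  cases z with
  | ofNat m =>
    rw [show Wz (Int.ofNat m) = W m from rfl, sd_W]
    simp
  | negSucc m =>
    rw [show Wz (Int.negSucc m) = N (m + 1) from rfl, sd_N]
    rw [Int.abs_eq_natAbs, Int.natAbs_negSucc]

/-- first syzygy of the trivial module -/
abbrev Om : R := W 1
/-- first cosyzygy of the trivial module -/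
abbrev Om' : R := N 1

theorem syz_Om : IsSyz Om (𝟙_ R) := (syz_W 0).iso_right W0iso

theorem syz_Om' : IsSyz (𝟙_ R) Om' := (syz_N 0).iso_left N0iso.symm

/-- tensoring with the syzygy -/
theorem seq_Om (z : ℤ) : SEq (Wz z ⊗ Om) (Wz (z + 1)) :=
  IsSyz.seq ((syz_Om.tensor (Wz z)).iso_right (ρ_ _)) (syz_Wz z)

theorem seq_Om'_Om : SEq (Om' ⊗ Om) (𝟙_ R) :=
  IsSyz.seq ((syz_Om.tensor Om').iso_right (ρ_ _)) syz_Om'

theorem seq_Om' (z : ℤ) : SEq (Wz z ⊗ Om') (Wz (z - 1)) := by
  have h1 : SEq (Wz (z - 1) ⊗ Om) (Wz z) := by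
    have := seq_Om (z - 1)
    rwa [sub_add_cancel] at this
  have h2 : SEq ((Wz (z - 1) ⊗ Om) ⊗ Om') (Wz z ⊗ Om') := h1.tensor_right Om'
  have h3 : SEq (Wz (z - 1) ⊗ (Om' ⊗ Om)) (Wz (z - 1) ⊗ 𝟙_ R) := seq_Om'_Om.tensor (Wz (z - 1))
  have e : (Wz (z - 1) ⊗ Om) ⊗ Om' ≅ Wz (z - 1) ⊗ (Om' ⊗ Om) :=
    α_ _ _ _ ≪≫ whiskerLeftIso _ (β_ _ _)
  exact ((h2.symm.trans (SEq.of_iso e)).trans h3).trans (SEq.of_iso (ρ_ _))

/-- the module of the counterexample -/
abbrev M : R := Om ⊞ Om'

instance : FiniteDimensional K M.V := by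
  have : FiniteDimensional K ((Rep.of (Om.ρ.prod Om'.ρ) : R)).V :=
    inferInstanceAs (FiniteDimensional K (Om.V × Om'.V))
  exact fd_iso (prodIso Om Om').symm

theorem tensor_biprod (X A B : R) : Nonempty (X ⊗ (A ⊞ B) ≅ (X ⊗ A) ⊞ (X ⊗ B)) := by
  have := preservesBinaryBiproducts_of_preservesBiproducts (tensorLeft X)
  exact ⟨(tensorLeft X).mapBiprod A B⟩

/-- the tensor powers -/
def Vn (n : ℕ) : R := (fun X : R => X ⊗ M)^[n] (𝟙_ R)

theorem Vn_zero : Vn 0 = 𝟙_ R := rfl

theorem Vn_succ (n : ℕ) : Vn (n + 1) = Vn n ⊗ M := by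
  unfold Vn
  rw [Function.iterate_succ_apply']

instance fd_Vn (n : ℕ) : FiniteDimensional K (Vn n).V := by
  induction n with
  | zero => exact fd_unit
  | succ n ih =>
    rw [Vn_succ]
    infer_instance

/-- The stable dimensions of the twisted tensor powers. -/
def an (n : ℕ) (z : ℤ) : ℤ := sd (Vn n ⊗ Wz z)

theorem an_zero (z : ℤ) : an 0 z = 2 * |z| + 1 := by
  unfold an
  rw [Vn_zero, sd_iso (λ_ (Wz z)), sd_Wz]

theorem an_succ (n : ℕ) (z : ℤ) : an (n + 1) z = an n (z + 1) + an n (z - 1) := by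
  unfold an
  rw [Vn_succ]
  obtain ⟨e1⟩ := tensor_biprod (Wz z) Om Om'
  obtain ⟨e2⟩ := tensor_biprod (Vn n) (Wz z ⊗ Om) (Wz z ⊗ Om')
  have e : (Vn n ⊗ M) ⊗ Wz z ≅ (Vn n ⊗ (Wz z ⊗ Om)) ⊞ (Vn n ⊗ (Wz z ⊗ Om')) :=
    α_ _ _ _ ≪≫ whiskerLeftIso _ (β_ _ _) ≪≫ whiskerLeftIso _ e1 ≪≫ e2
  rw [sd_of_iso_biprod e, seq_Om z _ inferInstance, seq_Om' z _ inferInstance]

theorem sd_Vn (n : ℕ) : sd (Vn n) = an n 0 := by
  unfold an
  rw [← sd_iso (ρ_ (Vn n))]
  exact (sd_iso (whiskerLeftIso (Vn n) W0iso)).symm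

end

end Pool.Agent.T9h68.Core
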