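import Pool.Agent.T9h68.Core.Comb

set_option autoImplicit false

namespace Pool.Agent.T9h68.Core

open Polynomial in
theorem no_sqrt (A B : ℚ[X]) (hA : A ≠ 0) (h : A ^ 2 = B ^ 2 * (1 - 4 * X ^ 2)) : False := by
  have hA2 : A ^ 2 ≠ 0 := pow_ne_zero _ hA
  have hBD : B ^ 2 * (1 - 4 * X ^ 2) ≠ 0 := h ▸ hA2
  have hD : (1 - 4 * X ^ 2 : ℚ[X]) = (X - C (1 / 2)) * (C (-4) * X + C (-2)) := by
    have e1 : (C (1 / 2 : ℚ)) * (C (-4 : ℚ)) = C (-2) := by
      rw [← C_mul]; norm_num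
    have e2 : (C (1 / 2 : ℚ)) * (C (-2 : ℚ)) = C (-1) := by
      rw [← C_mul]; norm_num
    have e3 : (4 : ℚ[X]) = C (4 : ℚ) := (map_ofNat C 4).symm
    have e4 : (C (-4 : ℚ)) = - C (4 : ℚ) := by rw [← C_neg]
    have e5 : (C (-1 : ℚ)) = (-1 : ℚ[X]) := by rw [C_neg, C_1]
    rw [e3]
    linear_combination (-X ^ 2) * e4 + X * e1 + e2 + e5
  have hD0 : (X - C (1 / 2)) * (C (-4) * X + C (-2)) ≠ (0 : ℚ[X]) := by
    rw [← hD]; exact right_ne_zero_of_mul hBD
  have hB2 : B ^ 2 ≠ 0 := left_ne_zero_of_mul hBD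
  have h1 : rootMultiplicity (1 / 2) (A ^ 2) = 2 * rootMultiplicity (1 / 2) A := by
    rw [pow_two, rootMultiplicity_mul (by rwa [← pow_two]), two_mul]
  have h2 : rootMultiplicity (1 / 2) (B ^ 2 * (1 - 4 * X ^ 2)) =
      2 * rootMultiplicity (1 / 2) B + 1 := by
    rw [rootMultiplicity_mul hBD, pow_two, rootMultiplicity_mul (by rwa [← pow_two]), ← two_mul,
      hD, rootMultiplicity_mul hD0,
      rootMultiplicity_X_sub_C_self, rootMultiplicity_eq_zero (p := C (-4) * X + C (-2))]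
    simp [IsRoot]
    norm_num
  rw [h, h2] at h1
  omega

/-- The generating function of the sequence is not rational. -/
theorem irr (c : ℕ → ℚ) (h0 : c 0 = 1) (h1 : ∀ n, c (n + 1) = 2 * c n + 4 * (en n : ℚ))
    (P Q : Polynomial ℚ) (hQ : Q ≠ 0)
    (h : (Q : PowerSeries ℚ) * PowerSeries.mk c = (P : PowerSeries ℚ)) : False := by
  have hC : (1 - 2 * PowerSeries.X) * PowerSeries.mk c = 1 + 4 * PowerSeries.X * E := by
    have h2 : (2 : PowerSeries ℚ) = PowerSeries.C (2 : ℚ) := (map_ofNat PowerSeries.C 2).symm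
    have h4 : (4 : PowerSeries ℚ) = PowerSeries.C (4 : ℚ) := (map_ofNat PowerSeries.C 4).symm
    ext n
    rw [sub_mul, one_mul, map_sub, mul_assoc, mul_assoc, h2, h4, PowerSeries.coeff_C_mul, map_add,
      PowerSeries.coeff_C_mul, PowerSeries.coeff_mk]
    cases n with
    | zero => simp [h0]
    | succ n =>
      rw [PowerSeries.coeff_succ_X_mul, PowerSeries.coeff_succ_X_mul, PowerSeries.coeff_mk, h1,
        PowerSeries.coeff_one, if_neg (Nat.succ_ne_zero n)]
      simp [E]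
  have hAB : ((4 * Polynomial.X * Q : Polynomial ℚ) : PowerSeries ℚ) * E =
      (((1 - 2 * Polynomial.X) * P - Q : Polynomial ℚ) : PowerSeries ℚ) := by
    have e2 : ((2 : Polynomial ℚ) : PowerSeries ℚ) = 2 := by
      have : (2 : Polynomial ℚ) = Polynomial.C (2 : ℚ) := (map_ofNat Polynomial.C 2).symm
      rw [this, Polynomial.coe_C]
      exact map_ofNat PowerSeries.C 2
    have e4 : ((4 : Polynomial ℚ) : PowerSeries ℚ) = 4 := by
      have : (4 : Polynomial ℚ) = Polynomial.C (4 : ℚ) := (map_ofNat Polynomial.C 4).symm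
      rw [this, Polynomial.coe_C]
      exact map_ofNat PowerSeries.C 4
    rw [Polynomial.coe_mul, Polynomial.coe_mul, Polynomial.coe_sub, Polynomial.coe_mul,
      Polynomial.coe_sub, Polynomial.coe_mul, Polynomial.coe_one, Polynomial.coe_X, e2, e4]
    linear_combination (1 - 2 * PowerSeries.X) * h - (Q : PowerSeries ℚ) * hC
  refine no_sqrt (4 * Polynomial.X * Q) ((1 - 2 * Polynomial.X) * P - Q) ?_ ?_
  · refine mul_ne_zero (mul_ne_zero ?_ Polynomial.X_ne_zero) hQ
    norm_num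
  · apply Polynomial.coe_injective ℚ
    have e4 : ((4 : Polynomial ℚ) : PowerSeries ℚ) = 4 := by
      have : (4 : Polynomial ℚ) = Polynomial.C (4 : ℚ) := (map_ofNat Polynomial.C 4).symm
      rw [this, Polynomial.coe_C]
      exact map_ofNat PowerSeries.C 4
    rw [Polynomial.coe_pow, Polynomial.coe_mul (((1 - 2 * Polynomial.X) * P - Q) ^ 2),
      Polynomial.coe_pow, ← hAB, Polynomial.coe_sub,
      Polynomial.coe_one, Polynomial.coe_mul 4 (Polynomial.X ^ 2), Polynomial.coe_pow,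
      Polynomial.coe_X, e4]
    linear_combination (-(((4 * Polynomial.X * Q : Polynomial ℚ) : PowerSeries ℚ)) ^ 2) * E_sq

end Pool.Agent.T9h68.Core
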