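import Mathlib

set_option autoImplicit false
open CategoryTheory CategoryTheory.MonoidalCategory CategoryTheory.Limits

namespace Pool.Agent.T9h68.Core

noncomputable section

/-- The field with two elements. -/
abbrev K : Type := ZMod 2

/-- The Klein four group. -/
abbrev G : Type := Multiplicative (ZMod 2) × Multiplicative (ZMod 2)

/-- first generator -/
abbrev g1 : G := (Multiplicative.ofAdd 1, 1)
/-- second generator -/
abbrev g2 : G := (1, Multiplicative.ofAdd 1)

theorem sum_G {M : Type*} [AddCommMonoid M] (f : G → M) :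
    ∑ g, f g = f 1 + f g1 + f g2 + f (g1 * g2) := by
  have h : (Finset.univ : Finset G) = {1, g1, g2, g1 * g2} := by decide
  rw [h]
  rw [Finset.sum_insert (by decide), Finset.sum_insert (by decide), Finset.sum_insert (by decide),
    Finset.sum_singleton]
  abel

theorem G_cases (g : G) : g = 1 ∨ g = g1 ∨ g = g2 ∨ g = g1 * g2 := by
  revert g; decide

/-- Representation given by two commuting operators of square zero. -/
def repXY {V : Type*} [AddCommGroup V] [Module K V] (x y : Module.End K V)
    (hx : x * x = 0) (hy : y * y = 0) (hxy : x * y = y * x) : Representation K G V where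
  toFun g := (1 + (Multiplicative.toAdd g.1 : K) • x) * (1 + (Multiplicative.toAdd g.2 : K) • y)
  map_one' := by simp
  map_mul' g h := by
    obtain ⟨a, b⟩ := g
    obtain ⟨c, d⟩ := h
    simp only [Prod.mk_mul_mk, toAdd_mul]
    generalize (Multiplicative.toAdd a : K) = a
    generalize (Multiplicative.toAdd b : K) = b
    generalize (Multiplicative.toAdd c : K) = c
    generalize (Multiplicative.toAdd d : K) = d
    have e1 : (1 + (a + c) • x) = (1 + a • x) * (1 + c • x) := by
      simp only [mul_add, add_mul, one_mul, mul_one, smul_mul_smul_comm, hx, smul_zero, add_zero,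
        add_smul]
      abel
    have e2 : (1 + (b + d) • y) = (1 + b • y) * (1 + d • y) := by
      simp only [mul_add, add_mul, one_mul, mul_one, smul_mul_smul_comm, hy, smul_zero, add_zero,
        add_smul]
      abel
    have e3 : (1 + c • x) * (1 + b • y) = (1 + b • y) * (1 + c • x) := by
      simp only [mul_add, add_mul, one_mul, mul_one, smul_mul_smul_comm, hxy, mul_comm b c]
      abel
    rw [e1, e2]
    calc (1 + a • x) * (1 + c • x) * ((1 + b • y) * (1 + d • y))
        = (1 + a • x) * ((1 + c • x) * (1 + b • y)) * (1 + d • y) := by simp only [mul_assoc]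
      _ = _ := by rw [e3]; simp only [mul_assoc]

section ops
variable {V : Type*} [AddCommGroup V] [Module K V] (ρ : Representation K G V)

/-- `g1 - 1` -/
def opX : Module.End K V := ρ g1 + 1
/-- `g2 - 1` -/
def opY : Module.End K V := ρ g2 + 1

theorem two_zero (v : V) : v + v = 0 := by
  have : (2 : K) • v = v + v := two_smul K v
  rw [← this]
  have h2 : (2 : K) = 0 := by decide
  rw [h2, zero_smul]

theorem two_zero_end (v : Module.End K V) : v + v = 0 := by
  ext w; simp [two_zero]

theorem neg_eq (v : V) : -v = v := by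
  have := two_zero v
  exact neg_eq_of_add_eq_zero_left this

theorem rho_g1_sq : ρ g1 * ρ g1 = 1 := by
  rw [← map_mul]
  have : (g1 * g1 : G) = 1 := by decide
  rw [this, map_one]

theorem rho_g2_sq : ρ g2 * ρ g2 = 1 := by
  rw [← map_mul]
  have : (g2 * g2 : G) = 1 := by decide
  rw [this, map_one]

theorem rho_comm : ρ g1 * ρ g2 = ρ g2 * ρ g1 := by
  rw [← map_mul, ← map_mul]
  have : (g1 * g2 : G) = g2 * g1 := by decide
  rw [this]

theorem opX_sq : opX ρ * opX ρ = 0 := by
  unfold opX
  have h := rho_g1_sq ρ
  have : (ρ g1 + 1) * (ρ g1 + 1) = ρ g1 * ρ g1 + (ρ g1 + ρ g1) + 1 := by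
    simp only [mul_add, add_mul, one_mul, mul_one]; abel
  rw [this, h, two_zero_end, add_zero, two_zero_end]

theorem opY_sq : opY ρ * opY ρ = 0 := by
  unfold opY
  have h := rho_g2_sq ρ
  have : (ρ g2 + 1) * (ρ g2 + 1) = ρ g2 * ρ g2 + (ρ g2 + ρ g2) + 1 := by
    simp only [mul_add, add_mul, one_mul, mul_one]; abel
  rw [this, h, two_zero_end, add_zero, two_zero_end]

theorem op_comm : opX ρ * opY ρ = opY ρ * opX ρ := by
  unfold opX opY
  have h := rho_comm ρ
  simp only [mul_add, add_mul, one_mul, mul_one, h]
  abel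

theorem rho_g1 : ρ g1 = 1 + opX ρ := by
  unfold opX
  rw [add_comm (ρ g1) 1, ← add_assoc, two_zero_end, zero_add]

theorem rho_g2 : ρ g2 = 1 + opY ρ := by
  unfold opY
  rw [add_comm (ρ g2) 1, ← add_assoc, two_zero_end, zero_add]

theorem norm_eq : ρ.norm = opX ρ * opY ρ := by
  unfold Representation.norm
  rw [sum_G, map_mul, map_one, rho_g1, rho_g2]
  generalize opX ρ = x
  generalize opY ρ = y
  have h1 := two_zero_end x
  have h2 := two_zero_end y
  have h3 := two_zero_end (1 : Module.End K V)
  have : (1 : Module.End K V) + (1 + x) + (1 + y) + (1 + x) * (1 + y)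
      = (1 + 1) + (1 + 1) + (x + x) + (y + y) + x * y := by
    simp only [mul_add, add_mul, one_mul, mul_one]; abel
  rw [this, h1, h2, h3]
  simp

end ops

theorem opX_repXY {V : Type*} [AddCommGroup V] [Module K V] (x y : Module.End K V)
    (hx : x * x = 0) (hy : y * y = 0) (hxy : x * y = y * x) :
    opX (repXY x y hx hy hxy) = x := by
  unfold opX
  change (1 + (1 : K) • x) * (1 + (0 : K) • y) + 1 = x
  rw [one_smul, zero_smul, add_zero, mul_one, add_comm, ← add_assoc, two_zero_end, zero_add]

theorem opY_repXY {V : Type*} [AddCommGroup V] [Module K V] (x y : Module.End K V)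
    (hx : x * x = 0) (hy : y * y = 0) (hxy : x * y = y * x) :
    opY (repXY x y hx hy hxy) = y := by
  unfold opY
  change (1 + (0 : K) • x) * (1 + (1 : K) • y) + 1 = y
  rw [one_smul, zero_smul, add_zero, one_mul, add_comm, ← add_assoc, two_zero_end, zero_add]

/-- A linear map commuting with the two operators is equivariant. -/
theorem equivariant_of_ops {V W : Type*} [AddCommGroup V] [Module K V] [AddCommGroup W]
    [Module K W] (ρ : Representation K G V) (σ : Representation K G W) (f : V →ₗ[K] W)
    (h1 : ∀ v, f (opX ρ v) = opX σ (f v)) (h2 : ∀ v, f (opY ρ v) = opY σ (f v)) (g : G) :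
    f ∘ₗ ρ g = σ g ∘ₗ f := by
  have a1 : ∀ v, f (ρ g1 v) = σ g1 (f v) := by
    intro v
    rw [rho_g1, rho_g1]
    simp [h1]
  have a2 : ∀ v, f (ρ g2 v) = σ g2 (f v) := by
    intro v
    rw [rho_g2, rho_g2]
    simp [h2]
  ext v
  rcases G_cases g with rfl | rfl | rfl | rfl
  · simp
  · simpa using a1 v
  · simpa using a2 v
  · simp only [LinearMap.comp_apply, map_mul, Module.End.mul_apply, a1, a2]

end

end Pool.Agent.T9h68.Core
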