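import Pool.Agent.T9h68.Core.Hig

set_option autoImplicit false
open CategoryTheory CategoryTheory.MonoidalCategory CategoryTheory.Limits

namespace Pool.Agent.T9h68.Core

noncomputable section

/-- Representations of the Klein four group. -/
abbrev R : Type 1 := Rep.{0} K G

/-- make a morphism -/
def mkHom {V W : R} (f : V.V →ₗ[K] W.V) (hf : ∀ g v, f (V.ρ g v) = W.ρ g (f v)) : V ⟶ W :=
  Rep.ofHom ⟨f, fun g => by ext v; exact hf g v⟩

theorem mkHom_apply {V W : R} (f : V.V →ₗ[K] W.V) (hf : ∀ g v, f (V.ρ g v) = W.ρ g (f v)) (v : V.V) :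
    (mkHom f hf).hom v = f v := rfl

/-- the covering map -/
def cov (V : R) : (V.V × V.V × V.V × V.V) →ₗ[K] V.V where
  toFun v := v.1 + opX V.ρ v.2.1 + opY V.ρ v.2.2.1 + opX V.ρ (opY V.ρ v.2.2.2)
  map_add' a b := by simp; abel
  map_smul' c a := by simp

theorem opX_opX {V : Type*} [AddCommGroup V] [Module K V] (ρ : Representation K G V) (v : V) :
    opX ρ (opX ρ v) = 0 := by
  rw [← Module.End.mul_apply, opX_sq]; simp

theorem opY_opY {V : Type*} [AddCommGroup V] [Module K V] (ρ : Representation K G V) (v : V) :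
    opY ρ (opY ρ v) = 0 := by
  rw [← Module.End.mul_apply, opY_sq]; simp

theorem opY_opX {V : Type*} [AddCommGroup V] [Module K V] (ρ : Representation K G V) (v : V) :
    opY ρ (opX ρ v) = opX ρ (opY ρ v) := by
  rw [← Module.End.mul_apply, ← Module.End.mul_apply, op_comm]

theorem cov_comm (V : R) (g : G) (v : V.V × V.V × V.V × V.V) :
    cov V (freeRep V.V g v) = V.ρ g (cov V v) := by
  have := equivariant_of_ops (freeRep V.V) V.ρ (cov V)
    (fun v => by
      rw [opX_free]
      simp only [cov, fx, LinearMap.coe_mk, AddHom.coe_mk, map_add, map_zero, zero_add, add_zero,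
        opX_opX])
    (fun v => by
      rw [opY_free]
      simp only [cov, fy, LinearMap.coe_mk, AddHom.coe_mk, map_add, map_zero, zero_add, add_zero,
        opY_opY, opY_opX, opX_opX]) g
  exact LinearMap.congr_fun this v

/-- the covering morphism -/
def covHom (V : R) : (Rep.of (freeRep V.V) : R) ⟶ V := mkHom (cov V) (cov_comm V)

theorem hig_of_projective (V : R) [Projective V] : Hig V.ρ := by
  have hs : Function.Surjective (covHom V).hom := by
    intro v
    exact ⟨(v, 0, 0, 0), by
      change cov V (v, 0, 0, 0) = v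
      simp [cov]⟩
  haveI : Epi (covHom V) := (Rep.epi_iff_surjective _).2 hs
  let s : V ⟶ Rep.of (freeRep V.V) := Projective.factorThru (𝟙 V) (covHom V)
  have h : s ≫ covHom V = 𝟙 V := Projective.factorThru_comp _ _
  refine (hig_free V.V).retract s.hom.toLinearMap (cov V) ?_ (cov_comm V) ?_
  · intro g v
    exact Rep.hom_comm_apply s g v
  · intro v
    have := congrArg (fun f : V ⟶ V => f.hom v) h
    exact this

theorem projective_of_hig (N : R) (h : Hig N.ρ) : Projective N := by
  obtain ⟨t, ht⟩ := h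
  constructor
  intro E B f e he
  have hs : Function.Surjective e.hom := (Rep.epi_iff_surjective e).1 he
  obtain ⟨s, hs2⟩ := LinearMap.exists_rightInverse_of_surjective e.hom.toLinearMap
    (LinearMap.range_eq_top.2 hs)
  let φ : N.V →ₗ[K] E.V := s ∘ₗ f.hom.toLinearMap ∘ₗ t
  let ψ : N.V →ₗ[K] E.V := ∑ g : G, (E.ρ g) ∘ₗ φ ∘ₗ N.ρ g⁻¹
  have hψ : ∀ v, ψ v = ∑ g : G, E.ρ g (φ (N.ρ g⁻¹ v)) := fun v => by
    simp only [ψ, LinearMap.sum_apply, LinearMap.comp_apply]
  refine ⟨mkHom ψ ?_, ?_⟩
  · intro h v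
    rw [hψ, hψ, map_sum]
    refine Fintype.sum_equiv (Equiv.mulLeft h⁻¹) _ _ fun g => ?_
    simp only [Equiv.coe_mulLeft]
    rw [← Module.End.mul_apply (E.ρ h), ← map_mul, ← Module.End.mul_apply (N.ρ g⁻¹), ← map_mul]
    simp [mul_assoc]
  · ext v
    change e.hom (ψ v) = f.hom v
    rw [hψ, map_sum]
    refine Eq.trans ?_ (congrArg f.hom (ht v))
    rw [map_sum]
    refine Finset.sum_congr rfl fun g _ => ?_
    rw [Rep.hom_comm_apply, Rep.hom_comm_apply]
    congr 1
    exact LinearMap.congr_fun hs2 _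

/-- the stable dimension of an object -/
def sd (V : R) : ℤ := sdim V.ρ

theorem sd_iso {V W : R} (e : V ≅ W) : sd V = sd W := by
  unfold sd sdim rk
  let E : V.V ≃ₗ[K] W.V := (Representation.equivOfIso e).toLinearEquiv
  have h1 : Module.finrank K V.V = Module.finrank K W.V := LinearEquiv.finrank_eq E
  have h2 : (LinearMap.range V.ρ.norm).map E.toLinearMap = LinearMap.range W.ρ.norm := by
    have hE : ∀ g v, E.toLinearMap (V.ρ g v) = W.ρ g (E.toLinearMap v) := fun g v =>
      Rep.hom_comm_apply e.hom g v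
    ext w
    constructor
    · rintro ⟨_, ⟨v, rfl⟩, rfl⟩
      exact ⟨E v, (norm_map E.toLinearMap hE v).symm⟩
    · rintro ⟨w, rfl⟩
      refine ⟨V.ρ.norm (E.symm w), ⟨_, rfl⟩, ?_⟩
      rw [norm_map E.toLinearMap hE]
      simp
  have h3 : Module.finrank K (LinearMap.range V.ρ.norm) =
      Module.finrank K (LinearMap.range W.ρ.norm) := by
    rw [← h2]
    exact LinearEquiv.finrank_eq
      ((LinearMap.range V.ρ.norm).equivMapOfInjective E.toLinearMap E.injective)
  rw [h1, h3]

theorem fd_iso {V W : R} (e : V ≅ W) [FiniteDimensional K V.V] : FiniteDimensional K W.V :=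
  (Representation.equivOfIso e).toLinearEquiv.finiteDimensional

/-- the product representation is the biproduct -/
def prodIso (A B : R) : A ⊞ B ≅ (Rep.of (A.ρ.prod B.ρ) : R) := by
  let b : BinaryBicone A B :=
    ⟨Rep.of (A.ρ.prod B.ρ), Rep.ofHom (.fst K A.ρ B.ρ), Rep.ofHom (.snd K A.ρ B.ρ),
      Rep.ofHom (.inl K A.ρ B.ρ), Rep.ofHom (.inr K A.ρ B.ρ), by ext1; simp,
      by ext1; simp [Rep.zero_hom], by ext1; simp [Rep.zero_hom], by ext1; simp⟩
  have hb : b.IsBilimit := isBinaryBilimitOfTotal b (by ext1; simp [b, Rep.add_hom])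
  exact (biprod.uniqueUpToIso A B hb).symm

theorem rk_prod {V W : Type*} [AddCommGroup V] [Module K V] [AddCommGroup W] [Module K W]
    [FiniteDimensional K V] [FiniteDimensional K W]
    (ρ : Representation K G V) (σ : Representation K G W) : rk (ρ.prod σ) = rk ρ + rk σ := by
  have h1 : ∀ v, (ρ.prod σ).norm v = (ρ.norm v.1, σ.norm v.2) := by
    intro v
    unfold Representation.norm
    simp only [LinearMap.sum_apply]
    ext
    · simp [Prod.fst_sum]
    · simp [Prod.snd_sum]
  have h2 : LinearMap.range (ρ.prod σ).norm =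
      (LinearMap.range ρ.norm).prod (LinearMap.range σ.norm) := by
    ext v
    constructor
    · rintro ⟨w, rfl⟩
      rw [h1]
      exact ⟨⟨_, rfl⟩, ⟨_, rfl⟩⟩
    · rintro ⟨⟨a, ha⟩, ⟨b, hb⟩⟩
      refine ⟨(a, b), ?_⟩
      rw [h1]
      exact Prod.ext ha hb
  unfold rk
  rw [h2]
  rw [← Module.finrank_prod]
  let e : ↥((LinearMap.range ρ.norm).prod (LinearMap.range σ.norm)) ≃ₗ[K]
      ↥(LinearMap.range ρ.norm) × ↥(LinearMap.range σ.norm) :=
    { toFun := fun v => (⟨v.1.1, v.2.1⟩, ⟨v.1.2, v.2.2⟩)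
      map_add' := fun a b => rfl
      map_smul' := fun c a => rfl
      invFun := fun v => ⟨(v.1.1, v.2.1), ⟨v.1.2, v.2.2⟩⟩
      left_inv := fun v => rfl
      right_inv := fun v => rfl }
  exact LinearEquiv.finrank_eq e

theorem sdim_prod {V W : Type*} [AddCommGroup V] [Module K V] [AddCommGroup W] [Module K W]
    [FiniteDimensional K V] [FiniteDimensional K W]
    (ρ : Representation K G V) (σ : Representation K G W) :
    sdim (ρ.prod σ) = sdim ρ + sdim σ := by
  unfold sdim
  rw [rk_prod, Module.finrank_prod]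
  push_cast
  ring

theorem sd_biprod (A B : R) [FiniteDimensional K A.V] [FiniteDimensional K B.V] :
    sd (A ⊞ B) = sd A + sd B := by
  rw [sd_iso (prodIso A B)]
  exact sdim_prod A.ρ B.ρ

theorem sd_of_projective (P : R) [FiniteDimensional K P.V] [Projective P] : sd P = 0 := by
  unfold sd sdim
  have := (hig_of_projective P).finrank
  omega

theorem rk_le (P : R) [FiniteDimensional K P.V] : 0 ≤ (rk P.ρ : ℤ) := by positivity

end

end Pool.Agent.T9h68.Core
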