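import Mathlib

set_option autoImplicit false

namespace Pool.Agent.T9h68.Core

/-- the number of walks -/
def wk : ℕ → ℤ → ℤ
  | 0, z => if z = 0 then 1 else 0
  | (n + 1), z => wk n (z + 1) + wk n (z - 1)

theorem wk_small (n : ℕ) : ∀ z : ℤ, z < -n → wk n z = 0 := by
  induction n with
  | zero => intro z hz; simp at hz; simp [wk, hz.ne]
  | succ n ih =>
    intro z hz
    push_cast at hz
    rw [wk, ih _ (by omega), ih _ (by omega), add_zero]

theorem wk_choose (n : ℕ) : ∀ j : ℕ, wk n (2 * j - n) = n.choose j := by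
  induction n with
  | zero =>
    intro j
    cases j with
    | zero => simp [wk]
    | succ j =>
      have : (2 * ((j + 1 : ℕ) : ℤ) - (0 : ℕ)) ≠ 0 := by push_cast; omega
      rw [wk, if_neg this]
      simp
  | succ n ih =>
    intro j
    cases j with
    | zero =>
      rw [wk]
      have h1 := ih 0
      have e1 : (2 * ((0 : ℕ) : ℤ) - ((n + 1 : ℕ) : ℤ) + 1) = 2 * ((0 : ℕ) : ℤ) - n := by
        push_cast; ring
      rw [e1, h1, wk_small n _ (by push_cast; omega)]
      simp
    | succ j =>
      rw [wk]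
      have e1 : (2 * ((j + 1 : ℕ) : ℤ) - ((n + 1 : ℕ) : ℤ) + 1) = 2 * ((j + 1 : ℕ) : ℤ) - n := by
        push_cast; ring
      have e2 : (2 * ((j + 1 : ℕ) : ℤ) - ((n + 1 : ℕ) : ℤ) - 1) = 2 * (j : ℤ) - n := by
        push_cast; ring
      rw [e1, e2, ih, ih, Nat.choose_succ_succ]
      push_cast
      ring

theorem wk_odd (n : ℕ) : ∀ z : ℤ, Odd (n + z) → wk n z = 0 := by
  induction n with
  | zero =>
    intro z hz
    have : z ≠ 0 := by
      rintro rfl
      simp at hz
    simp [wk, this]
  | succ n ih =>
    intro z hz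
    have hz' : Odd ((n : ℤ) + 1 + z) := by exact_mod_cast hz
    rw [wk, ih _ (by convert hz' using 1; ring), ih _ (by
      have : (n : ℤ) + (z - 1) = (n + 1 + z) - 2 := by ring
      rw [this]
      exact hz'.sub_even even_two), add_zero]

/-- the sequence of even central binomial coefficients -/
def en (n : ℕ) : ℤ := wk n 0

theorem en_even (m : ℕ) : en (2 * m) = (Nat.centralBinom m : ℤ) := by
  have := wk_choose (2 * m) m
  unfold en
  rw [Nat.centralBinom_eq_two_mul_choose, ← this]
  congr 1
  push_cast
  ring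

theorem en_odd (m : ℕ) : en (2 * m + 1) = 0 := by
  unfold en
  apply wk_odd
  push_cast
  exact ⟨m, by ring⟩

theorem en_rec (n : ℕ) : ((n : ℤ) + 2) * en (n + 2) = 4 * (n + 1) * en n := by
  rcases Nat.even_or_odd' n with ⟨m, rfl | rfl⟩
  · rw [show 2 * m + 2 = 2 * (m + 1) by ring, en_even, en_even]
    have := Nat.succ_mul_centralBinom_succ m
    have h : ((m : ℤ) + 1) * (Nat.centralBinom (m + 1) : ℤ) = 2 * (2 * m + 1) * Nat.centralBinom m := by
      exact_mod_cast this
    push_cast
    linear_combination 2 * h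
  · rw [show 2 * m + 1 + 2 = 2 * (m + 1) + 1 by ring, en_odd, en_odd]
    ring

theorem en_zero : en 0 = 1 := by simp [en, wk]
theorem en_one : en 1 = 0 := en_odd 0

/-- relation between the dimension sequence and walks -/
theorem an_wk (a : ℕ → ℤ → ℤ) (h0 : ∀ z, a 0 z = 2 * |z| + 1)
    (h1 : ∀ n z, a (n + 1) z = a n (z + 1) + a n (z - 1)) (n : ℕ) :
    ∀ z, a (n + 1) z = 2 * a n z + 4 * wk n z := by
  induction n with
  | zero =>
    intro z
    rw [h1, h0, h0, h0, wk]
    rcases lt_trichotomy z 0 with h | h | h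
    · rw [if_neg h.ne, abs_of_neg h, abs_of_neg (by omega : z - 1 < 0),
        abs_of_nonpos (by omega : z + 1 ≤ 0)]
      ring
    · subst h
      simp
    · rw [if_neg h.ne', abs_of_pos h, abs_of_nonneg (by omega : 0 ≤ z - 1),
        abs_of_pos (by omega : 0 < z + 1)]
      ring
  | succ n ih =>
    intro z
    rw [h1 (n + 1), ih, ih, h1 n z, wk]
    ring

open PowerSeries in
/-- the generating function of the sequence -/
noncomputable def E : PowerSeries ℚ := PowerSeries.mk fun n => (en n : ℚ)

open PowerSeries in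
theorem E_diff : (1 - 4 * X ^ 2) * d⁄dX ℚ E = 4 * X * E := by
  ext n
  rw [sub_mul, one_mul, map_sub, mul_assoc, mul_assoc]
  have h4 : (4 : PowerSeries ℚ) = C (4 : ℚ) := (map_ofNat C 4).symm
  rw [h4, coeff_C_mul, coeff_C_mul, coeff_X_pow_mul', coeff_derivative]
  cases n with
  | zero =>
    simp [E, en_one]
  | succ n =>
    rw [coeff_succ_X_mul]
    cases n with
    | zero =>
      have := en_rec 0
      rw [en_zero] at this
      have h : ((2 : ℚ)) * (en 2 : ℚ) = 4 := by exact_mod_cast (by simpa using this)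
      simp [E, en_zero]
      linarith
    | succ n =>
      rw [if_pos (by omega), show n + 1 + 1 - 2 = n by omega, coeff_derivative]
      have := en_rec (n + 1)
      have h : ((n : ℚ) + 1 + 2) * (en (n + 1 + 2) : ℚ) = 4 * (n + 1 + 1) * en (n + 1) := by
        exact_mod_cast this
      simp only [E, coeff_mk]
      push_cast
      rw [show n + 1 + 1 + 1 = n + 1 + 2 by ring]
      linear_combination h

open PowerSeries in
theorem E_sq : E ^ 2 * (1 - 4 * X ^ 2) = 1 := by
  apply PowerSeries.derivative.ext
  · have h4 : (4 : PowerSeries ℚ) = C (4 : ℚ) := (map_ofNat C 4).symm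
    have : d⁄dX ℚ (1 - 4 * X ^ 2 : PowerSeries ℚ) = -(8 * X) := by
      rw [h4, map_sub, Derivation.leibniz, derivative_one, derivative_C]
      simp only [derivative_pow, smul_eq_mul, derivative_X]
      rw [← h4]
      push_cast
      ring
    rw [derivative_one, Derivation.leibniz, this, derivative_pow]
    simp only [smul_eq_mul]
    linear_combination (2 * E) * E_diff
  · simp [E, en_zero]

end Pool.Agent.T9h68.Core
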