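import Pool.Agent.T9h68.Core.Basic

set_option autoImplicit false
open CategoryTheory CategoryTheory.MonoidalCategory CategoryTheory.Limits

namespace Pool.Agent.T9h68.Core

noncomputable section

open Representation

/-- Higman's criterion. -/
def Hig {V : Type*} [AddCommGroup V] [Module K V] (ρ : Representation K G V) : Prop :=
  ∃ t : V →ₗ[K] V, ∀ v, ∑ g : G, ρ g (t (ρ g⁻¹ v)) = v

section dims

variable {V : Type*} [AddCommGroup V] [Module K V] (ρ : Representation K G V)

/-- rank of the norm -/
def rk : ℕ := Module.finrank K (LinearMap.range ρ.norm)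

theorem fixed_g1 {v : V} (h : opX ρ v = 0) : ρ g1 v = v := by
  rw [rho_g1]; simp [h]

theorem fixed_g2 {v : V} (h : opY ρ v = 0) : ρ g2 v = v := by
  rw [rho_g2]; simp [h]

theorem opX_of_fixed {v : V} (h : ρ g1 v = v) : opX ρ v = 0 := by
  unfold opX; simp [h, two_zero]

theorem fixed_all {v : V} (h1 : opX ρ v = 0) (h2 : opY ρ v = 0) (g : G) : ρ g v = v := by
  rcases G_cases g with rfl | rfl | rfl | rfl
  · simp
  · exact fixed_g1 ρ h1
  · exact fixed_g2 ρ h2
  · rw [map_mul, Module.End.mul_apply, fixed_g2 ρ h2, fixed_g1 ρ h1]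

theorem Hig.fixed_mem {ρ : Representation K G V} (h : Hig ρ) {v : V} (h1 : opX ρ v = 0)
    (h2 : opY ρ v = 0) : v ∈ LinearMap.range ρ.norm := by
  obtain ⟨t, ht⟩ := h
  refine ⟨t v, ?_⟩
  have := ht v
  rw [← this]
  unfold Representation.norm
  rw [LinearMap.sum_apply]
  refine Finset.sum_congr rfl fun g _ => ?_
  rw [this, fixed_all ρ h1 h2]

theorem Hig.ker_opX {ρ : Representation K G V} (h : Hig ρ) :
    LinearMap.ker (opX ρ) = LinearMap.range (opX ρ) := by
  apply le_antisymm
  · intro v hv
    rw [LinearMap.mem_ker] at hv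
    obtain ⟨t, ht⟩ := h
    have h1 := ht v
    rw [sum_G] at h1
    have e1 : ρ (g1⁻¹) v = v := by
      have : (g1⁻¹ : G) = g1 := by decide
      rw [this]; exact fixed_g1 ρ hv
    have e2 : ρ ((g1 * g2)⁻¹) v = ρ g2⁻¹ v := by
      have : ((g1 * g2)⁻¹ : G) = g2⁻¹ * g1⁻¹ := by decide
      rw [this, map_mul, Module.End.mul_apply, e1]
    rw [e1, e2] at h1
    set s : V := t v + ρ g2 (t (ρ g2⁻¹ v)) with hs
    refine ⟨s, ?_⟩
    have e3 : opX ρ s = s + ρ g1 s := by
      unfold opX; simp [add_comm]
    rw [e3, hs]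
    refine Eq.trans ?_ h1
    simp only [map_one, inv_one, Module.End.one_apply, map_mul, Module.End.mul_apply, map_add]
    abel
  · rintro _ ⟨w, rfl⟩
    rw [LinearMap.mem_ker, ← Module.End.mul_apply, opX_sq]
    simp

theorem norm_comm_ops : ρ.norm = opY ρ * opX ρ := by
  rw [norm_eq, op_comm]

/-- dimension formula -/
theorem Hig.finrank {ρ : Representation K G V} [FiniteDimensional K V] (h : Hig ρ) :
    Module.finrank K V = 4 * rk ρ := by
  have h1 := LinearMap.finrank_range_add_finrank_ker (opX ρ)
  rw [h.ker_opX] at h1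
  -- restriction of opY to range opX
  let R := LinearMap.range (opX ρ)
  have hR : ∀ v ∈ R, opY ρ v ∈ R := by
    rintro _ ⟨w, rfl⟩
    refine ⟨opY ρ w, ?_⟩
    rw [← Module.End.mul_apply, op_comm, Module.End.mul_apply]
  let yR : R →ₗ[K] R := (opY ρ).restrict hR
  have h2 := LinearMap.finrank_range_add_finrank_ker yR
  have e1 : (LinearMap.range yR).map R.subtype = LinearMap.range ρ.norm := by
    ext v
    constructor
    · rintro ⟨w, ⟨u, rfl⟩, rfl⟩
      obtain ⟨u, z, rfl⟩ := u
      refine ⟨z, ?_⟩
      rw [norm_comm_ops]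
      rfl
    · rintro ⟨z, rfl⟩
      refine ⟨yR ⟨opX ρ z, z, rfl⟩, ⟨_, rfl⟩, ?_⟩
      rw [norm_comm_ops]
      rfl
  have e2 : (LinearMap.ker yR).map R.subtype = LinearMap.range ρ.norm := by
    ext v
    constructor
    · rintro ⟨⟨w, hw⟩, hw2, rfl⟩
      apply h.fixed_mem
      · obtain ⟨z, rfl⟩ := hw
        change opX ρ (opX ρ z) = 0
        rw [← Module.End.mul_apply, opX_sq]; simp
      · have := congrArg Subtype.val (LinearMap.mem_ker.1 hw2)
        exact this
    · rintro ⟨z, rfl⟩
      have hz : ρ.norm z = opX ρ (opY ρ z) := by rw [norm_eq]; rfl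
      refine ⟨⟨ρ.norm z, by rw [hz]; exact ⟨_, rfl⟩⟩, ?_, rfl⟩
      change yR _ = 0
      apply Subtype.ext
      change opY ρ (ρ.norm z) = 0
      rw [norm_comm_ops, ← Module.End.mul_apply, ← mul_assoc, opY_sq]
      simp
  have f1 : Module.finrank K (LinearMap.range yR) = rk ρ := by
    unfold rk
    rw [← e1]
    exact (LinearEquiv.finrank_eq
      ((LinearMap.range yR).equivMapOfInjective R.subtype R.injective_subtype))
  have f2 : Module.finrank K (LinearMap.ker yR) = rk ρ := by
    unfold rk
    rw [← e2]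
    exact (LinearEquiv.finrank_eq
      ((LinearMap.ker yR).equivMapOfInjective R.subtype R.injective_subtype))
  rw [f1, f2] at h2
  have h3 : rk ρ + rk ρ = Module.finrank K (LinearMap.range (opX ρ)) := h2
  omega

/-- The submodule generated by the images of the two operators. -/
def rad : Submodule K V := LinearMap.range (opX ρ) ⊔ LinearMap.range (opY ρ)

theorem sub_mem_rad (g : G) (v : V) : ρ g v + v ∈ rad ρ := by
  have hX : ∀ w, ρ g1 w + w ∈ rad ρ := fun w =>
    Submodule.mem_sup_left ⟨w, by simp [opX]⟩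
  have hY : ∀ w, ρ g2 w + w ∈ rad ρ := fun w =>
    Submodule.mem_sup_right ⟨w, by simp [opY]⟩
  rcases G_cases g with rfl | rfl | rfl | rfl
  · simp [two_zero]
  · exact hX v
  · exact hY v
  · have h := add_mem (hX (ρ g2 v)) (hY v)
    rw [map_mul, Module.End.mul_apply]
    have e : ρ g1 (ρ g2 v) + ρ g2 v + (ρ g2 v + v)
        = ρ g1 (ρ g2 v) + (ρ g2 v + ρ g2 v) + v := by abel
    rw [e, two_zero, add_zero] at h
    exact h

theorem Hig.ker_norm {ρ : Representation K G V} (h : Hig ρ) :
    LinearMap.ker ρ.norm = rad ρ := by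
  apply le_antisymm
  · intro v hv
    rw [LinearMap.mem_ker] at hv
    obtain ⟨t, ht⟩ := h
    have h2 : ∑ g : G, t (ρ g⁻¹ v) = 0 := by
      rw [← map_sum]
      have : ∑ g : G, ρ g⁻¹ v = ρ.norm v := by
        unfold Representation.norm
        rw [LinearMap.sum_apply]
        exact Fintype.sum_equiv (Equiv.inv G) _ _ (fun _ => rfl)
      rw [this, hv, map_zero]
    have h3 : v = ∑ g : G, (ρ g (t (ρ g⁻¹ v)) + t (ρ g⁻¹ v)) := by
      rw [Finset.sum_add_distrib, h2, add_zero, ht]
    rw [h3]
    exact Submodule.sum_mem _ fun g _ => sub_mem_rad ρ g _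
  · unfold rad
    apply sup_le
    · rintro _ ⟨w, rfl⟩
      rw [LinearMap.mem_ker, norm_comm_ops, ← Module.End.mul_apply, mul_assoc, opX_sq]
      simp
    · rintro _ ⟨w, rfl⟩
      rw [LinearMap.mem_ker, norm_eq, ← Module.End.mul_apply, mul_assoc, opY_sq]
      simp

end dims

section syz

variable {A F B : Type*} [AddCommGroup A] [Module K A] [AddCommGroup F] [Module K F]
  [AddCommGroup B] [Module K B] (ρA : Representation K G A) (ρF : Representation K G F)
  (ρB : Representation K G B)

/-- the stable dimension -/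
def sdim {V : Type*} [AddCommGroup V] [Module K V] (ρ : Representation K G V) : ℤ :=
  (Module.finrank K V : ℤ) - 4 * rk ρ

theorem norm_map {V W : Type*} [AddCommGroup V] [Module K V] [AddCommGroup W] [Module K W]
    {ρ : Representation K G V} {σ : Representation K G W} (f : V →ₗ[K] W)
    (hf : ∀ g v, f (ρ g v) = σ g (f v)) (v : V) : f (ρ.norm v) = σ.norm (f v) := by
  unfold Representation.norm
  simp only [LinearMap.sum_apply, map_sum, hf]

theorem opX_map {V W : Type*} [AddCommGroup V] [Module K V] [AddCommGroup W] [Module K W]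
    {ρ : Representation K G V} {σ : Representation K G W} (f : V →ₗ[K] W)
    (hf : ∀ g v, f (ρ g v) = σ g (f v)) (v : V) : f (opX ρ v) = opX σ (f v) := by
  unfold opX
  simp [hf]

theorem opY_map {V W : Type*} [AddCommGroup V] [Module K V] [AddCommGroup W] [Module K W]
    {ρ : Representation K G V} {σ : Representation K G W} (f : V →ₗ[K] W)
    (hf : ∀ g v, f (ρ g v) = σ g (f v)) (v : V) : f (opY ρ v) = opY σ (f v) := by
  unfold opY
  simp [hf]

theorem sdim_syz [FiniteDimensional K A] [FiniteDimensional K F] [FiniteDimensional K B]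
    (hF : Hig ρF) (i : A →ₗ[K] F) (p : F →ₗ[K] B)
    (hi : ∀ g v, i (ρA g v) = ρF g (i v)) (hp : ∀ g v, p (ρF g v) = ρB g (p v))
    (inj : Function.Injective i) (surj : Function.Surjective p)
    (ex : LinearMap.range i = LinearMap.ker p) :
    sdim ρA = 3 * (Module.finrank K B : ℤ) - 4 * Module.finrank K (rad ρB) := by
  -- dim A + dim B = dim F
  have d1 : Module.finrank K A + Module.finrank K B = Module.finrank K F := by
    have h := LinearMap.finrank_range_add_finrank_ker p
    rw [LinearMap.range_eq_top.2 surj, finrank_top, ← ex,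
      LinearMap.finrank_range_of_inj inj] at h
    omega
  -- rank of the norm on A
  have d2 : Module.finrank K (LinearMap.range (ρF.norm ∘ₗ i)) = rk ρA := by
    have e : ρF.norm ∘ₗ i = i ∘ₗ ρA.norm := by
      ext v; simp [norm_map i hi]
    rw [e, LinearMap.range_comp]
    unfold rk
    exact (LinearEquiv.finrank_eq
      ((LinearMap.range ρA.norm).equivMapOfInjective i inj)).symm
  have d3 := LinearMap.finrank_range_add_finrank_ker (ρF.norm ∘ₗ i)
  rw [d2] at d3
  -- kernel
  let q : rad ρF →ₗ[K] B := p.domRestrict (rad ρF)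
  have d4 := LinearMap.finrank_range_add_finrank_ker q
  have e1 : LinearMap.range q = rad ρB := by
    have : LinearMap.range q = (rad ρF).map p := by
      ext b
      constructor
      · rintro ⟨⟨v, hv⟩, rfl⟩
        exact ⟨v, hv, rfl⟩
      · rintro ⟨v, hv, rfl⟩
        exact ⟨⟨v, hv⟩, rfl⟩
    rw [this]
    unfold rad
    rw [Submodule.map_sup, ← LinearMap.range_comp, ← LinearMap.range_comp]
    have a1 : p ∘ₗ opX ρF = opX ρB ∘ₗ p := by
      ext v; simp [opX_map p hp]
    have a2 : p ∘ₗ opY ρF = opY ρB ∘ₗ p := by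
      ext v; simp [opY_map p hp]
    rw [a1, a2, LinearMap.range_comp, LinearMap.range_comp, LinearMap.range_eq_top.2 surj,
      Submodule.map_top, Submodule.map_top]
  have e2 : Module.finrank K (LinearMap.ker q) = Module.finrank K (LinearMap.ker (ρF.norm ∘ₗ i)) := by
    have a1 : (LinearMap.ker q).map (rad ρF).subtype = (LinearMap.ker (ρF.norm ∘ₗ i)).map i := by
      ext v
      constructor
      · rintro ⟨⟨w, hw⟩, hw2, rfl⟩
        have hw3 : p w = 0 := hw2
        have : w ∈ LinearMap.range i := by rw [ex]; exact hw3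
        obtain ⟨a, rfl⟩ := this
        refine ⟨a, ?_, rfl⟩
        rw [← hF.ker_norm] at hw
        exact hw
      · rintro ⟨a, ha, rfl⟩
        have h1 : i a ∈ rad ρF := by
          rw [← hF.ker_norm]; exact ha
        refine ⟨⟨i a, h1⟩, ?_, rfl⟩
        have : i a ∈ LinearMap.ker p := by rw [← ex]; exact ⟨a, rfl⟩
        exact this
    have b1 := LinearEquiv.finrank_eq
      ((LinearMap.ker q).equivMapOfInjective (rad ρF).subtype (rad ρF).injective_subtype)
    have b2 := LinearEquiv.finrank_eq ((LinearMap.ker (ρF.norm ∘ₗ i)).equivMapOfInjective i inj)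
    rw [b1, b2, a1]
  have d5 := LinearMap.finrank_range_add_finrank_ker ρF.norm
  rw [hF.ker_norm] at d5
  have d6 := hF.finrank
  have d7 : Module.finrank K (LinearMap.range ρF.norm) = rk ρF := rfl
  rw [e1, e2] at d4
  unfold sdim
  omega

end syz

section maps

/-- retracts of Higman representations -/
theorem Hig.retract {V W : Type*} [AddCommGroup V] [Module K V] [AddCommGroup W] [Module K W]
    {ρ : Representation K G V} {σ : Representation K G W} (h : Hig σ)
    (s : V →ₗ[K] W) (p : W →ₗ[K] V)
    (hs : ∀ g v, s (ρ g v) = σ g (s v)) (hp : ∀ g v, p (σ g v) = ρ g (p v))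
    (hps : ∀ v, p (s v) = v) : Hig ρ := by
  obtain ⟨t, ht⟩ := h
  refine ⟨p ∘ₗ t ∘ₗ s, fun v => ?_⟩
  have := congrArg p (ht (s v))
  rw [hps, map_sum] at this
  refine Eq.trans ?_ this
  refine Finset.sum_congr rfl fun g _ => ?_
  simp only [LinearMap.comp_apply, hs, hp]

/-- tensor products -/
theorem Hig.tensor {V W : Type*} [AddCommGroup V] [Module K V] [AddCommGroup W] [Module K W]
    (ρ : Representation K G V) {σ : Representation K G W} (h : Hig σ) : Hig (ρ.tprod σ) := by
  obtain ⟨t, ht⟩ := h
  refine ⟨LinearMap.lTensor V t, fun v => ?_⟩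
  induction v using TensorProduct.induction_on with
  | zero => simp
  | tmul v w =>
    simp only [Representation.tprod_apply, TensorProduct.map_tmul, LinearMap.lTensor_tmul]
    have : ∀ g : G, ρ g (ρ g⁻¹ v) = v := fun g => by
      rw [← Module.End.mul_apply, ← map_mul]; simp
    simp only [this]
    rw [← TensorProduct.tmul_sum, ht]
  | add a b ha hb =>
    simp only [map_add, Finset.sum_add_distrib, ha, hb]

/-- The operators on `U^4`. -/
def fx (U : Type*) [AddCommGroup U] [Module K U] : Module.End K (U × U × U × U) where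
  toFun v := (0, v.1, 0, v.2.2.1)
  map_add' a b := by simp
  map_smul' c a := by simp

/-- The operators on `U^4`. -/
def fy (U : Type*) [AddCommGroup U] [Module K U] : Module.End K (U × U × U × U) where
  toFun v := (0, 0, v.1, v.2.1)
  map_add' a b := by simp
  map_smul' c a := by simp

/-- The free module on `U`. -/
def freeRep (U : Type*) [AddCommGroup U] [Module K U] : Representation K G (U × U × U × U) :=
  repXY (fx U) (fy U) (by ext v <;> simp [fx]) (by ext v <;> simp [fy])
    (by ext v <;> simp [fx, fy])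

theorem opX_free (U : Type*) [AddCommGroup U] [Module K U] : opX (freeRep U) = fx U :=
  opX_repXY _ _ _ _ _

theorem opY_free (U : Type*) [AddCommGroup U] [Module K U] : opY (freeRep U) = fy U :=
  opY_repXY _ _ _ _ _

theorem hig_free (U : Type*) [AddCommGroup U] [Module K U] : Hig (freeRep U) := by
  refine ⟨{ toFun := fun v => (v.1 + v.2.1 + v.2.2.1 + v.2.2.2, 0, 0, 0)
            map_add' := fun a b => by
              ext <;> simp
              abel
            map_smul' := fun c a => by
              ext <;> simp }, fun v => ?_⟩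
  rw [sum_G]
  have i1 : (g1⁻¹ : G) = g1 := by decide
  have i2 : (g2⁻¹ : G) = g2 := by decide
  have i3 : ((g1 * g2)⁻¹ : G) = g1 * g2 := by decide
  rw [i1, i2, i3]
  simp only [map_one, inv_one, map_mul, Module.End.mul_apply, Module.End.one_apply, rho_g1, rho_g2,
    opX_free, opY_free, LinearMap.add_apply]
  obtain ⟨a, b, c, d⟩ := v
  simp only [fx, fy, LinearMap.coe_mk, AddHom.coe_mk, Prod.mk_add_mk, add_zero, zero_add]
  have key : ∀ z : U, z + z = 0 := two_zero
  refine Prod.ext ?_ (Prod.ext ?_ (Prod.ext ?_ ?_))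
  · calc a + b + c + d + (a + (b + a) + c + (d + c)) + (a + b + (c + a) + (d + b)) +
          (a + (b + a) + (c + a) + (d + b + (c + a)))
        = a + ((a + a) + (a + a) + (a + a) + (a + a)) + ((b + b) + (b + b) + (b + b)) +
          ((c + c) + (c + c) + (c + c)) + ((d + d) + (d + d)) := by abel
      _ = a := by simp only [key, add_zero]
  · calc a + (b + a) + c + (d + c) + (a + (b + a) + (c + a) + (d + b + (c + a)))
        = b + ((a + a) + (a + a) + (a + a)) + (b + b) + ((c + c) + (c + c)) + (d + d) := by abel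
      _ = b := by simp only [key, add_zero]
  · calc a + b + (c + a) + (d + b) + (a + (b + a) + (c + a) + (d + b + (c + a)))
        = c + ((a + a) + (a + a) + (a + a)) + ((b + b) + (b + b)) + (c + c) + (d + d) := by abel
      _ = c := by simp only [key, add_zero]
  · calc a + (b + a) + (c + a) + (d + b + (c + a))
        = d + ((a + a) + (a + a)) + (b + b) + (c + c) := by abel
      _ = d := by simp only [key, add_zero]

end maps

end

end Pool.Agent.T9h68.Core
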