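import Pool.Agent.T9h68.Core.Cat

set_option autoImplicit false
open CategoryTheory CategoryTheory.MonoidalCategory CategoryTheory.Limits ZeroObject

namespace Pool.Agent.T9h68.Core

noncomputable section

/-- The free module of rank one. -/
abbrev Fr : R := Rep.of (freeRep K)

instance : Projective Fr := projective_of_hig _ (hig_free K)

instance : FiniteDimensional K Fr.V := inferInstanceAs (FiniteDimensional K (K × K × K × K))

theorem finrank_Fr : Module.finrank K Fr.V = 4 := by
  change Module.finrank K (K × K × K × K) = 4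
  simp

theorem opX_Fr (v : K × K × K × K) : opX Fr.ρ v = (0, v.1, 0, v.2.2.1) := by
  change opX (freeRep K) v = _
  rw [opX_free]; rfl

theorem opY_Fr (v : K × K × K × K) : opY Fr.ρ v = (0, 0, v.1, v.2.1) := by
  change opY (freeRep K) v = _
  rw [opY_free]; rfl

/-- the map from the free module -/
def phiLin (V : R) (v : V.V) : (K × K × K × K) →ₗ[K] V.V where
  toFun c := c.1 • v + c.2.1 • opX V.ρ v + c.2.2.1 • opY V.ρ v + c.2.2.2 • opX V.ρ (opY V.ρ v)
  map_add' a b := by simp [add_smul]; abel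
  map_smul' c a := by simp [mul_smul]

theorem phiLin_comm (V : R) (v : V.V) (g : G) (c : K × K × K × K) :
    phiLin V v (Fr.ρ g c) = V.ρ g (phiLin V v c) := by
  have := equivariant_of_ops Fr.ρ V.ρ (phiLin V v)
    (fun c => by
      rw [opX_Fr]
      simp only [phiLin, LinearMap.coe_mk, AddHom.coe_mk, map_add, map_zero, zero_add, add_zero,
        opX_opX, zero_smul, map_smul, smul_zero])
    (fun c => by
      rw [opY_Fr]
      simp only [phiLin, LinearMap.coe_mk, AddHom.coe_mk, map_add, map_zero, zero_add, add_zero,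
        opY_opY, opY_opX, zero_smul, map_smul, smul_zero]) g
  exact LinearMap.congr_fun this c

/-- the map to the free module -/
def psiLin (V : R) (φ : V.V →ₗ[K] K) : V.V →ₗ[K] (K × K × K × K) where
  toFun w := (φ (opX V.ρ (opY V.ρ w)), φ (opY V.ρ w), φ (opX V.ρ w), φ w)
  map_add' a b := by simp
  map_smul' c a := by simp

theorem psiLin_comm (V : R) (φ : V.V →ₗ[K] K) (g : G) (w : V.V) :
    psiLin V φ (V.ρ g w) = Fr.ρ g (psiLin V φ w) := by
  have := equivariant_of_ops V.ρ Fr.ρ (psiLin V φ)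
    (fun c => by
      rw [opX_Fr]
      simp only [psiLin, LinearMap.coe_mk, AddHom.coe_mk, opX_opX, opY_opX, map_zero])
    (fun c => by
      rw [opY_Fr]
      simp only [psiLin, LinearMap.coe_mk, AddHom.coe_mk, opY_opY, map_zero]) g
  exact LinearMap.congr_fun this w

theorem psi_phi (V : R) (v : V.V) (φ : V.V →ₗ[K] K) (h : φ (opX V.ρ (opY V.ρ v)) = 1)
    (c : K × K × K × K) :
    psiLin V φ (phiLin V v (psiLin V φ (phiLin V v c))) = c := by
  have key : ∀ c : K × K × K × K, psiLin V φ (phiLin V v c) =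
      (c.1, c.1 * φ (opY V.ρ v) + c.2.1, c.1 * φ (opX V.ρ v) + c.2.2.1,
        c.1 * φ v + c.2.1 * φ (opX V.ρ v) + c.2.2.1 * φ (opY V.ρ v) + c.2.2.2) := by
    intro c
    simp only [psiLin, phiLin, LinearMap.coe_mk, AddHom.coe_mk, map_add, map_smul, opX_opX,
      opY_opX, opY_opY, map_zero, h]
    refine Prod.ext ?_ (Prod.ext ?_ (Prod.ext ?_ ?_)) <;> simp
  rw [key, key]
  generalize φ (opY V.ρ v) = a
  generalize φ (opX V.ρ v) = b
  generalize φ v = d
  revert c a b d
  decide

variable {V : R}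

theorem sd_split (h : V.ρ.norm ≠ 0) : ∃ C : R, Nonempty (V ≅ Fr ⊞ C) := by
  obtain ⟨v, hv⟩ : ∃ v, V.ρ.norm v ≠ 0 := by
    by_contra hc
    push Not at hc
    exact h (LinearMap.ext hc)
  have hv2 : V.ρ.norm v = opX V.ρ (opY V.ρ v) := by rw [norm_eq]; rfl
  obtain ⟨φ, hφ⟩ := Module.Projective.exists_dual_ne_zero K hv
  have hφ1 : φ (opX V.ρ (opY V.ρ v)) = 1 := by
    rw [← hv2]
    have : ∀ a : K, a ≠ 0 → a = 1 := by decide
    exact this _ hφ
  let Φ : Fr ⟶ V := mkHom (phiLin V v) (phiLin_comm V v)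
  let Ψ : V ⟶ Fr := mkHom (psiLin V φ) (psiLin_comm V φ)
  have : IsSplitMono Φ := ⟨⟨⟨Ψ ≫ Φ ≫ Ψ, by
    apply Rep.hom_ext
    apply Representation.IntertwiningMap.ext
    apply LinearMap.ext
    intro c
    exact psi_phi V v φ hφ1 c⟩⟩⟩
  let b := binaryBiconeOfIsSplitMonoOfCokernel (cokernelIsCokernel Φ)
  have hb : b.IsBilimit := isBilimitBinaryBiconeOfIsSplitMonoOfCokernel (cokernelIsCokernel Φ)
  exact ⟨_, ⟨biprod.uniqueUpToIso _ _ hb⟩⟩

theorem fd_left {A B : R} (e : V ≅ A ⊞ B) [FiniteDimensional K V.V] : FiniteDimensional K A.V := by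
  have := fd_iso (e ≪≫ prodIso A B)
  have : FiniteDimensional K (A.V × B.V) := this
  exact Module.Finite.of_surjective (LinearMap.fst K A.V B.V) LinearMap.fst_surjective

theorem fd_right {A B : R} (e : V ≅ A ⊞ B) [FiniteDimensional K V.V] : FiniteDimensional K B.V := by
  have := fd_iso (e ≪≫ prodIso A B)
  have : FiniteDimensional K (A.V × B.V) := this
  exact Module.Finite.of_surjective (LinearMap.snd K A.V B.V) LinearMap.snd_surjective

theorem finrank_biprod {A B : R} (e : V ≅ A ⊞ B) [FiniteDimensional K V.V] :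
    Module.finrank K V.V = Module.finrank K A.V + Module.finrank K B.V := by
  have := fd_left e
  have := fd_right e
  rw [← Module.finrank_prod]
  exact LinearEquiv.finrank_eq (Representation.equivOfIso (e ≪≫ prodIso A B)).toLinearEquiv

theorem sd_of_iso_biprod {A B : R} (e : V ≅ A ⊞ B) [FiniteDimensional K V.V] :
    sd V = sd A + sd B := by
  have := fd_left e
  have := fd_right e
  rw [sd_iso e, sd_biprod]

theorem exists_core (n : ℕ) : ∀ (V : R) [FiniteDimensional K V.V], Module.finrank K V.V = n →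
    ∃ N P : R, Projective P ∧ Nonempty (V ≅ N ⊞ P) ∧ (Module.finrank K N.V : ℤ) = sd V := by
  induction n using Nat.strong_induction_on with
  | _ n ih =>
    intro V _ hn
    by_cases h : V.ρ.norm = 0
    · refine ⟨V, (0 : R), inferInstance, ⟨isoBiprodZero (isZero_zero _)⟩, ?_⟩
      have h0 : rk V.ρ = 0 := by
        unfold rk
        rw [h, LinearMap.range_zero, finrank_bot]
      unfold sd sdim
      rw [h0]
      simp
    · obtain ⟨C, ⟨e⟩⟩ := sd_split h
      have := fd_right e
      have h1 := finrank_biprod e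
      rw [finrank_Fr] at h1
      obtain ⟨N, P, hP, ⟨e2⟩, h2⟩ := ih (Module.finrank K C.V) (by omega) C rfl
      refine ⟨N, P ⊞ Fr, inferInstance, ⟨?_⟩, ?_⟩
      · exact e ≪≫ biprod.braiding _ _ ≪≫ biprod.mapIso e2 (Iso.refl _) ≪≫
          biprod.associator N P Fr
      · rw [h2, sd_of_iso_biprod e, sd_of_projective Fr, zero_add]

/-- The core dimension is the stable dimension. -/
theorem core_dim (V : R) [FiniteDimensional K V.V] :
    ((sInf {d : ℕ | ∃ N P' : R, Projective P' ∧ Nonempty (V ≅ N ⊞ P') ∧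
        Module.finrank K N.V = d} : ℕ) : ℤ) = sd V := by
  obtain ⟨N, P, hP, he, h⟩ := exists_core _ V rfl
  rw [← h]
  have hmem : Module.finrank K N.V ∈ {d : ℕ | ∃ N P' : R, Projective P' ∧
      Nonempty (V ≅ N ⊞ P') ∧ Module.finrank K N.V = d} := ⟨N, P, hP, he, rfl⟩
  congr 1
  apply le_antisymm
  · exact Nat.sInf_le hmem
  · obtain ⟨N', P', hP', ⟨e'⟩, h'⟩ := Nat.sInf_mem ⟨_, hmem⟩
    rw [← h']
    have := fd_left e'
    have := fd_right e'
    have h1 := sd_of_iso_biprod e'
    rw [sd_of_projective P', add_zero] at h1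
    have h2 : sd N' ≤ Module.finrank K N'.V := by
      unfold sd sdim
      have := rk_le N'
      omega
    omega

end

end Pool.Agent.T9h68.Core
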