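import Pool.Agent.T9h68.Core.Split

set_option autoImplicit false
open CategoryTheory CategoryTheory.MonoidalCategory CategoryTheory.Limits

namespace Pool.Agent.T9h68.Core

noncomputable section

/-- `A` is the kernel of a surjection of a finite dimensional projective onto `B`. -/
def IsSyz (A B : R) : Prop :=
  ∃ (F : R) (i : A.V →ₗ[K] F.V) (p : F.V →ₗ[K] B.V), FiniteDimensional K F.V ∧ Hig F.ρ ∧
    (∀ g v, i (A.ρ g v) = F.ρ g (i v)) ∧ (∀ g v, p (F.ρ g v) = B.ρ g (p v)) ∧
    Function.Injective i ∧ Function.Surjective p ∧ LinearMap.range i = LinearMap.ker p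

theorem IsSyz.fd_left {A B : R} (h : IsSyz A B) : FiniteDimensional K A.V := by
  obtain ⟨F, i, p, hF, -, -, -, hi, -⟩ := h
  exact Module.Finite.of_injective i hi

theorem IsSyz.fd_right {A B : R} (h : IsSyz A B) : FiniteDimensional K B.V := by
  obtain ⟨F, i, p, hF, -, -, -, -, hp, -⟩ := h
  exact Module.Finite.of_surjective p hp

theorem IsSyz.iso_right {A B C : R} (h : IsSyz A B) (e : B ≅ C) : IsSyz A C := by
  obtain ⟨F, i, p, hF, hH, ei, ep, hi, hp, hex⟩ := h
  let E : B.V ≃ₗ[K] C.V := (Representation.equivOfIso e).toLinearEquiv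
  have hE : ∀ g v, E (B.ρ g v) = C.ρ g (E v) := fun g v => Rep.hom_comm_apply e.hom g v
  refine ⟨F, i, E.toLinearMap ∘ₗ p, hF, hH, ei, ?_, hi, ?_, ?_⟩
  · intro g v
    simp only [LinearMap.comp_apply, ep, LinearEquiv.coe_coe, hE]
  · exact E.surjective.comp hp
  · rw [hex, LinearEquiv.ker_comp]

theorem IsSyz.iso_left {A B C : R} (h : IsSyz A B) (e : C ≅ A) : IsSyz C B := by
  obtain ⟨F, i, p, hF, hH, ei, ep, hi, hp, hex⟩ := h
  let E : C.V ≃ₗ[K] A.V := (Representation.equivOfIso e).toLinearEquiv
  have hE : ∀ g v, E (C.ρ g v) = A.ρ g (E v) := fun g v => Rep.hom_comm_apply e.hom g v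
  refine ⟨F, i ∘ₗ E.toLinearMap, p, hF, hH, ?_, ep, ?_, hp, ?_⟩
  · intro g v
    simp only [LinearMap.comp_apply, ei, LinearEquiv.coe_coe, hE]
  · exact hi.comp E.injective
  · rw [LinearMap.range_comp, LinearEquiv.range, Submodule.map_top, hex]

/-- Syzygies are stable under tensor products. -/
theorem IsSyz.tensor (V : R) [FiniteDimensional K V.V] {A B : R} (h : IsSyz A B) :
    IsSyz (V ⊗ A) (V ⊗ B) := by
  obtain ⟨F, i, p, hF, hH, ei, ep, hi, hp, hex⟩ := h
  refine ⟨V ⊗ F, LinearMap.lTensor V.V i, LinearMap.lTensor V.V p, ?_, ?_, ?_, ?_, ?_, ?_, ?_⟩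
  · change FiniteDimensional K (TensorProduct K V.V F.V)
    infer_instance
  · exact hH.tensor V.ρ
  · intro g v
    change LinearMap.lTensor V.V i ((V.ρ.tprod A.ρ) g v) =
      (V.ρ.tprod F.ρ) g (LinearMap.lTensor V.V i v)
    induction v using TensorProduct.induction_on with
    | zero => simp
    | tmul v w =>
      simp only [Representation.tprod_apply, TensorProduct.map_tmul, LinearMap.lTensor_tmul, ei]
    | add a b ha hb => simp only [map_add, ha, hb]
  · intro g v
    change LinearMap.lTensor V.V p ((V.ρ.tprod F.ρ) g v) =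
      (V.ρ.tprod B.ρ) g (LinearMap.lTensor V.V p v)
    induction v using TensorProduct.induction_on with
    | zero => simp
    | tmul v w =>
      simp only [Representation.tprod_apply, TensorProduct.map_tmul, LinearMap.lTensor_tmul, ep]
    | add a b ha hb => simp only [map_add, ha, hb]
  · exact Module.Flat.lTensor_preserves_injective_linearMap i hi
  · exact LinearMap.lTensor_surjective V.V hp
  · have hE : Function.Exact i p := by
      rw [LinearMap.exact_iff]; exact hex.symm
    have := lTensor_exact V.V hE hp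
    rw [LinearMap.exact_iff] at this
    exact this.symm

/-- the two syzygies of a module have the same stable dimension -/
theorem IsSyz.sd_eq {A A' B : R} (h : IsSyz A B) (h' : IsSyz A' B) : sd A = sd A' := by
  have a1 := h.fd_left
  have a2 := h'.fd_left
  have a3 := h.fd_right
  obtain ⟨F, i, p, hF, hH, ei, ep, hi, hp, hex⟩ := h
  obtain ⟨F', i', p', hF', hH', ei', ep', hi', hp', hex'⟩ := h'
  have b1 := sdim_syz A.ρ F.ρ B.ρ hH i p ei ep hi hp hex
  have b2 := sdim_syz A'.ρ F'.ρ B.ρ hH' i' p' ei' ep' hi' hp' hex'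
  unfold sd
  rw [b1, b2]

/-- tensor-stable equality of stable dimensions -/
def SEq (A B : R) : Prop := ∀ V : R, FiniteDimensional K V.V → sd (V ⊗ A) = sd (V ⊗ B)

theorem SEq.symm {A B : R} (h : SEq A B) : SEq B A := fun V hV => (h V hV).symm

theorem SEq.trans {A B C : R} (h : SEq A B) (h' : SEq B C) : SEq A C :=
  fun V hV => (h V hV).trans (h' V hV)

theorem SEq.of_iso {A B : R} (e : A ≅ B) : SEq A B :=
  fun V _ => sd_iso (whiskerLeftIso V e)

theorem IsSyz.seq {A A' B : R} (h : IsSyz A B) (h' : IsSyz A' B) : SEq A A' :=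
  fun V _ => (h.tensor V).sd_eq (h'.tensor V)

theorem SEq.tensor {A B : R} (h : SEq A B) (W : R) [FiniteDimensional K W.V] :
    SEq (W ⊗ A) (W ⊗ B) := by
  intro V hV
  have : FiniteDimensional K (V ⊗ W : R).V := by
    change FiniteDimensional K (TensorProduct K V.V W.V)
    infer_instance
  rw [← sd_iso (α_ V W A), ← sd_iso (α_ V W B)]
  exact h _ this

theorem SEq.tensor_right {A B : R} (h : SEq A B) (W : R) [FiniteDimensional K W.V] :
    SEq (A ⊗ W) (B ⊗ W) :=
  ((SEq.of_iso (β_ A W)).trans (h.tensor W)).trans (SEq.of_iso (β_ W B))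

instance fd_tensor (V W : R) [FiniteDimensional K V.V] [FiniteDimensional K W.V] :
    FiniteDimensional K (V ⊗ W : R).V :=
  inferInstanceAs (FiniteDimensional K (TensorProduct K V.V W.V))

instance fd_unit : FiniteDimensional K (𝟙_ R).V := inferInstanceAs (FiniteDimensional K K)

/-- the Kronecker representation attached to two linear maps -/
def kronRep {T S : Type} [AddCommGroup T] [Module K T] [AddCommGroup S] [Module K S]
    (x y : T →ₗ[K] S) : Representation K G (T × S) :=
  repXY (V := T × S)
    { toFun := fun v => (0, x v.1)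
      map_add' := fun a b => by simp
      map_smul' := fun c a => by simp }
    { toFun := fun v => (0, y v.1)
      map_add' := fun a b => by simp
      map_smul' := fun c a => by simp }
    (by apply LinearMap.ext; intro v; simp) (by apply LinearMap.ext; intro v; simp)
    (by apply LinearMap.ext; intro v; simp)

/-- the Kronecker module attached to two linear maps -/
def kron {T S : Type} [AddCommGroup T] [Module K T] [AddCommGroup S] [Module K S]
    (x y : T →ₗ[K] S) : R := Rep.of (kronRep x y)

section kron
variable {T S Z : Type} [AddCommGroup T] [Module K T] [AddCommGroup S] [Module K S]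
  [AddCommGroup Z] [Module K Z]

theorem opX_kron (x y : T →ₗ[K] S) (v : T × S) : opX (kronRep x y) v = (0, x v.1) := by
  unfold kronRep
  rw [opX_repXY]
  rfl

theorem opY_kron (x y : T →ₗ[K] S) (v : T × S) : opY (kronRep x y) v = (0, y v.1) := by
  unfold kronRep
  rw [opY_repXY]
  rfl

instance [FiniteDimensional K T] [FiniteDimensional K S] (x y : T →ₗ[K] S) :
    FiniteDimensional K (kron x y).V := inferInstanceAs (FiniteDimensional K (T × S))

theorem sd_kron [FiniteDimensional K T] [FiniteDimensional K S] (x y : T →ₗ[K] S) :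
    sd (kron x y) = Module.finrank K T + Module.finrank K S := by
  have h : (kronRep x y).norm = 0 := by
    rw [norm_eq]
    apply LinearMap.ext
    intro v
    rw [Module.End.mul_apply, opY_kron, opX_kron]
    simp
  have h0 : rk (kronRep x y) = 0 := by
    unfold rk
    rw [h, LinearMap.range_zero, finrank_bot]
  change sdim (kronRep x y) = _
  unfold sdim
  rw [h0, Module.finrank_prod]
  push_cast
  ring

/-- the syzygy of a Kronecker module -/
theorem isSyz_kron [FiniteDimensional K T] (x y : T →ₗ[K] S) (x' y' : Z →ₗ[K] T)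
    (surj : ∀ s, ∃ a b, x a + y b = s) (zero : ∀ z, x (y' z) + y (x' z) = 0)
    (inj : ∀ z, x' z = 0 → y' z = 0 → z = 0)
    (exact : ∀ a b, x a + y b = 0 → ∃ z, y' z = a ∧ x' z = b) :
    IsSyz (kron x' y') (kron x y) := by
  let i : (Z × T) →ₗ[K] (T × T × T × T) :=
    { toFun := fun v => (0, y' v.1, x' v.1, v.2)
      map_add' := fun a b => by simp
      map_smul' := fun c a => by simp }
  let p : (T × T × T × T) →ₗ[K] (T × S) :=
    { toFun := fun v => (v.1, x v.2.1 + y v.2.2.1)
      map_add' := fun a b => by
        refine Prod.ext (by simp) ?_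
        simp only [Prod.fst_add, Prod.snd_add, map_add]
        abel
      map_smul' := fun c a => by simp }
  refine ⟨Rep.of (freeRep T), i, p, ?_, hig_free T, ?_, ?_, ?_, ?_, ?_⟩
  · exact inferInstanceAs (FiniteDimensional K (T × T × T × T))
  · intro g v
    have := equivariant_of_ops (kronRep x' y') (freeRep T) i
      (fun c => by
        rw [opX_kron, opX_free]
        simp [i, fx])
      (fun c => by
        rw [opY_kron, opY_free]
        simp [i, fy]) g
    exact LinearMap.congr_fun this v
  · intro g v
    have := equivariant_of_ops (freeRep T) (kronRep x y) p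
      (fun c => by
        rw [opX_kron, opX_free]
        simp [p, fx])
      (fun c => by
        rw [opY_kron, opY_free]
        simp [p, fy]) g
    exact LinearMap.congr_fun this v
  · have : Function.Injective i := by
      rw [injective_iff_map_eq_zero]
      rintro ⟨z, t⟩ h
      simp only [i, LinearMap.coe_mk, AddHom.coe_mk, Prod.mk_eq_zero] at h
      obtain ⟨-, h1, h2, h3⟩ := h
      rw [inj z h2 h1, h3]
      rfl
    exact this
  · have : Function.Surjective p := by
      rintro ⟨t, s⟩
      obtain ⟨a, b, h⟩ := surj s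
      exact ⟨(t, a, b, 0), by simp [p, h]⟩
    exact this
  · have : LinearMap.range i = LinearMap.ker p := by
      ext v
      constructor
      · rintro ⟨w, rfl⟩
        rw [LinearMap.mem_ker]
        simp [i, p, zero]
      · intro hv
        obtain ⟨a, b, c, d⟩ := v
        rw [LinearMap.mem_ker] at hv
        simp only [p, LinearMap.coe_mk, AddHom.coe_mk, Prod.mk_eq_zero] at hv
        obtain ⟨z, h1, h2⟩ := exact _ _ hv.2
        refine ⟨(z, d), ?_⟩
        simp [i, h1, h2, hv.1]
    exact this

end kron

end

end Pool.Agent.T9h68.Core
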